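import Pool.Agent.Helper32.B4.St

/-!
# B4, module KO: Taylor coefficients of `koebe ∘ H / u`
-/

set_option autoImplicit false

open Metric Set Filter Topology
open scoped ComplexConjugate

namespace Pool.Agent.Helper29.B4

open Pool.Agent.Helper32.B4 Pool.Agent.Helper32.DX Pool.Agent.Helper64.C3
open Pool.Agent.Helper39.QM

theorem hKO : StKO := by
  intro u H hu hh hi hder
  have huC : (u : ℂ) ≠ 0 := by exact_mod_cast hu.ne'
  have h1 : deriv H 0 ≠ 0 := by rw [hder]; exact huC
  set f : ℂ → ℂ := fun z => koebe (H z) / u with hf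
  have hfd : DifferentiableOn ℂ f (ball 0 1) := (M6.koebe_diff.comp hh.1 hh.2.1).div_const _
  have hA := AA_diff hh hi h1
  have hzH : DifferentiableOn ℂ (fun z => z * H z) (ball 0 1) := differentiableOn_id.mul hh.1
  have huz : DifferentiableOn ℂ (fun z : ℂ => (2 * u : ℂ) * z) (ball 0 1) := by fun_prop
  have hP1 : DifferentiableOn ℂ (fun z => AA H z - (2 * u : ℂ) * z) (ball 0 1) := hA.sub huz
  have huzH : DifferentiableOn ℂ (fun z => (u : ℂ) * (z * H z)) (ball 0 1) := hzH.const_mul _
  set P : ℂ → ℂ := fun z => (AA H z - (2 * u : ℂ) * z) + (u : ℂ) * (z * H z) with hP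
  have hPd : DifferentiableOn ℂ P (ball 0 1) := hP1.add huzH
  have cP : ∀ n : ℕ, coeff (n + 1) P
      = ac (n + 1) H - (if n + 1 = 1 then (2 * u : ℂ) else 0) + u * coeff n H := by
    intro n
    rw [hP, coeff_add hP1 huzH, coeff_sub hA huz, coeff_lin, coeff_cmul, coeff_zmul hh.1]
    rfl
  have key : EqOn (fun z => f z * P z) (fun z => (1 : ℂ) * z) (ball 0 1) := by
    intro z hz
    have e1 := AA_mul hh hi h1 hz
    rw [hder] at e1
    have hw : ‖H z‖ < 1 := by simpa using hh.2.1 hz
    have hne : 1 - H z ≠ 0 := by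
      intro h0
      have h2 : H z = 1 := (sub_eq_zero.mp h0).symm
      rw [h2, norm_one] at hw
      exact lt_irrefl _ hw
    show koebe (H z) / u * ((AA H z - (2 * u : ℂ) * z) + (u : ℂ) * (z * H z)) = 1 * z
    unfold koebe
    field_simp
    linear_combination e1
  have P0 : coeff 0 P = 1 := by
    rw [coeff_zero, hP]
    simp [AA_zero h1]
  have w0 := coeff_zero_self hh
  have w1 : coeff 1 H = (u : ℂ) := by rw [coeff_one, hder]
  have w2 : coeff 2 H = -((u : ℂ) * ac 1 H) := by
    have := (ac_rel hh hi h1).1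
    rwa [hder] at this
  have P1 : coeff 1 P = ac 1 H - 2 * u := by
    have := cP 0
    rw [w0] at this
    simpa using this
  have P2 : coeff 2 P = ac 2 H + (u : ℂ) ^ 2 := by
    have := cP 1
    rw [w1, if_neg (by norm_num)] at this
    rw [this]
    ring
  have P3 : coeff 3 P = ac 3 H - (u : ℂ) ^ 2 * ac 1 H := by
    have := cP 2
    rw [w2, if_neg (by norm_num)] at this
    rw [this]
    ring
  have hrel : ∀ n : ℕ, ∑ i ∈ Finset.range (n + 1), coeff i f * coeff (n - i) P
      = if n = 1 then (1 : ℂ) else 0 := by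
    intro n
    rw [← coeff_mul hfd hPd n, coeff_congr key, coeff_lin]
  have e0 := hrel 0
  have e1 := hrel 1
  have e2 := hrel 2
  have e3 := hrel 3
  have e4 := hrel 4
  simp only [Finset.sum_range_succ, Finset.sum_range_zero, Nat.sub_zero, Nat.sub_self,
    Nat.reduceSub, zero_add, P0, P1, P2, P3, if_true, if_neg (show ¬ (0 = 1) by omega),
    if_neg (show ¬ (2 = 1) by omega),
    if_neg (show ¬ (3 = 1) by omega), if_neg (show ¬ (4 = 1) by omega), mul_one] at e0 e1 e2 e3 e4
  rw [e0] at e1 e2 e3 e4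
  have f1 : coeff 1 f = 1 := by linear_combination e1
  rw [f1] at e2 e3 e4
  have f2 : coeff 2 f = -(ac 1 H - 2 * u) := by linear_combination e2
  rw [f2] at e3 e4
  have f3 : coeff 3 f = (ac 1 H - 2 * u) ^ 2 - (ac 2 H + (u : ℂ) ^ 2) := by
    linear_combination e3
  rw [f3] at e4
  refine ⟨⟨hfd, ?_, ?_, ?_⟩, f2, ?_, ?_⟩
  · intro z hz w hw h
    have h5 : koebe (H z) = koebe (H w) := (div_left_inj' huC).1 h
    exact hi hz hw (M6.koebe_inj (hh.2.1 hz) (hh.2.1 hw) h5)
  · show koebe (H 0) / u = 0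
    rw [hh.2.2]
    simp [koebe]
  · rw [← coeff_one]
    exact f1
  · unfold B1
    rw [f2, f3]
    ring
  · unfold B2
    rw [f2, f3]
    linear_combination -e4

end Pool.Agent.Helper29.B4
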